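import Pool.Agent.Helper65.KH.Goals

/-!
# KH (MP_20ee5e_ag), packet MO: the dimension of the quotients is monotone
-/

set_option autoImplicit false

namespace Pool.Agent.Helper72.KH.MO

open Pool.Agent.Helper65.KH

theorem mm_mono (ι : Type) [Fintype ι] {M M' : ℕ} (h : M' ≤ M) : mm ι M ≤ mm ι M' := by
  refine Ideal.span_mono ?_
  rintro f ⟨p, hp, rfl⟩
  exact ⟨p, h.trans hp, rfl⟩

theorem t (hFD : S_FD) : S_MO := by
  intro ι _ _ Q Q' M M' hQ hM
  have hle : Q ⊔ mm ι M ≤ Q' ⊔ mm ι M' := sup_le_sup hQ (mm_mono ι hM)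
  have hfd := hFD ι Q M
  exact LinearMap.finrank_le_finrank_of_surjective
    (f := (Ideal.Quotient.factorₐ ℚ hle).toLinearMap) (Ideal.Quotient.factor_surjective hle)

end Pool.Agent.Helper72.KH.MO
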